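import Pool.Agent.Y216.PF.Ht
import Pool.Agent.W603.CX.WarAll

/-!
The degrees of the curves on a closed subvariety, without lines, of a variety of points whose
`m`-th powers are the values of polynomials.
-/

set_option autoImplicit false

open FF Pool.Agent.W603.LV Pool.Agent.W603.PV Pool.Agent.W601.VF Polynomial Pool.Agent.W602.GT

namespace Pool.Agent.Y216.PF

open Pool.Agent.Y190.BV Pool.Agent.Y216

section

variable {k : Type} [Field k] {K : Type} [Field K] [Algebra k K] {N : ℕ}

/-- all coefficients vanish to order at least `c` -/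
def GeP (P : Place k K) (c : ℤ) (F : K[X]) : Prop := ∀ j, Ge P c (F.coeff j)

namespace GeP

variable {P : Place k K} {c d : ℤ} {F G : K[X]}

theorem add (hF : GeP P c F) (hG : GeP P c G) : GeP P c (F + G) := fun j => by
  rw [coeff_add]
  exact (hF j).add (hG j)

theorem zero : GeP P c (0 : K[X]) := fun j => by
  rw [coeff_zero]
  exact Ge.zero

theorem sum {ι : Type*} (s : Finset ι) (F : ι → K[X]) (h : ∀ i ∈ s, GeP P c (F i)) :
    GeP P c (∑ i ∈ s, F i) := fun j => by
  rw [finsetSum_coeff]
  exact Ge.sum s _ fun i hi => h i hi j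

theorem mul (hF : GeP P c F) (hG : GeP P d G) : GeP P (c + d) (F * G) := fun j => by
  rw [coeff_mul]
  exact Ge.sum _ _ fun x _ => (hF x.1).mul (hG x.2)

theorem one : GeP P 0 (1 : K[X]) := fun j => by
  rw [coeff_one]
  split_ifs
  · exact Ge.one
  · exact Ge.zero

theorem C {u : K} (hu : Ge P c u) : GeP P c (Polynomial.C u) := fun j => by
  rw [coeff_C]
  split_ifs
  · exact hu
  · exact Ge.zero

theorem pow (hF : GeP P c F) (n : ℕ) : GeP P (n * c) (F ^ n) := by
  induction n with
  | zero =>
    rw [pow_zero, Nat.cast_zero, zero_mul]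
    exact one
  | succ n ih =>
    rw [pow_succ]
    have := ih.mul hF
    convert this using 1
    push_cast
    ring

theorem prod {ι : Type*} (s : Finset ι) (F : ι → K[X]) (e : ι → ℤ)
    (h : ∀ i ∈ s, GeP P (e i) (F i)) : GeP P (∑ i ∈ s, e i) (∏ i ∈ s, F i) := by
  classical
  induction s using Finset.induction_on with
  | empty =>
    rw [Finset.sum_empty, Finset.prod_empty]
    exact one
  | insert a s ha ih =>
    rw [Finset.sum_insert ha, Finset.prod_insert ha]
    exact (h a (Finset.mem_insert_self a s)).mul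
      (ih fun i hi => h i (Finset.mem_insert_of_mem hi))

end GeP

/-- the value of a form at polynomials -/
theorem geP_form {P : Place k K} {G : MvPolynomial (Fin (N + 1)) k} {d : ℕ}
    (hG : G.IsHomogeneous d) {g : Fin (N + 1) → K[X]} {c : ℤ} (hg : ∀ i, GeP P c (g i)) :
    GeP P (d * c) (MvPolynomial.aeval g G) := by
  rw [MvPolynomial.aeval_def, MvPolynomial.eval₂_eq']
  refine GeP.sum _ _ fun α hα => ?_
  have h1 : ∑ i, α i = d := by
    have h2 := hG (MvPolynomial.mem_support_iff.1 hα)
    rw [← h2, Finsupp.weight_apply, Finsupp.sum_fintype _ _ (fun i => by simp)]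
    simp
  have h2 : (d : ℤ) * c = 0 + ∑ i, (α i : ℤ) * c := by
    rw [zero_add, ← Finset.sum_mul]
    congr 1
    exact_mod_cast h1.symm
  rw [h2]
  refine GeP.mul ?_ (GeP.prod _ _ _ fun i _ => (hg i).pow (α i))
  have h3 : (algebraMap k K[X]) (MvPolynomial.coeff α G) =
      Polynomial.C (algebraMap k K (MvPolynomial.coeff α G)) := rfl
  rw [h3]
  exact GeP.C (Ge.const _)

end

variable {k : Type} [Field k] [IsAlgClosed k] [CharZero k] {K : Type} [Field K] [Algebra k K]
  [IsFF k K] {N n m : ℕ} {ι : Type}

theorem pord_supp {y : Fin (N + 1) → K} (hy : ∃ i, y i ≠ 0) :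
    (Function.support fun P : Place k K => pord P y).Finite := by
  obtain ⟨T, hT⟩ := exists_supp (k := k) Finset.univ y
  refine T.finite_toSet.subset fun P hP => ?_
  obtain ⟨j, hj, hj2⟩ := exists_pord P hy
  have hP' : pord P y ≠ 0 := hP
  rw [← hj2] at hP'
  exact hT j (Finset.mem_univ _) P hP'

/-- the restriction of a form to the line -/
noncomputable def lineP (a : Fin (N + 1) → k) (z : Fin (N + 1) → K)
    (G : MvPolynomial (Fin (N + 1)) k) : K[X] :=
  MvPolynomial.aeval (fun i => (C (algebraMap k K (a i)) - X) * C (z i)) G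

omit [IsAlgClosed k] [CharZero k] [IsFF k K] in
theorem lineP_eval (a : Fin (N + 1) → k) (z : Fin (N + 1) → K)
    (G : MvPolynomial (Fin (N + 1)) k) (s : K) :
    (lineP a z G).eval s = val (fun i => (algebraMap k K (a i) - s) * z i) G := by
  have h1 : ((Polynomial.aeval s : Polynomial K →ₐ[K] K).restrictScalars k).comp
      (MvPolynomial.aeval (fun i => (C (algebraMap k K (a i)) - X) * C (z i))) =
      MvPolynomial.aeval (fun i => (algebraMap k K (a i) - s) * z i) := by
    apply MvPolynomial.algHom_ext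
    intro i
    simp only [AlgHom.comp_apply, MvPolynomial.aeval_X, AlgHom.restrictScalars_apply, map_mul,
      map_sub, Polynomial.aeval_C, Polynomial.aeval_X, Algebra.algebraMap_self, RingHom.id_apply]
  unfold val lineP
  rw [← h1, ← Polynomial.coe_aeval_eq_eval]
  rfl

theorem hp_lineP {a : Fin (N + 1) → k} {z : Fin (N + 1) → K} (hz : ∃ i, z i ≠ 0)
    {G : MvPolynomial (Fin (N + 1)) k} {d : ℕ} (hG : G.IsHomogeneous d) (hQ : lineP a z G ≠ 0) :
    hp k (lineP a z G) ≤ d * pht k z := by
  have h1 : ∀ P : Place k K, (d : ℤ) * pord P z ≤ cnt P (lineP a z G) := by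
    intro P
    obtain ⟨j, hj, hj2⟩ := cnt_att P hQ
    rw [← hj2]
    refine (geP_form (P := P) hG (g := fun i => (C (algebraMap k K (a i)) - X) * C (z i))
      (c := pord P z) (fun i => ?_) j).resolve_left hj
    have h2 : GeP P 0 (C (algebraMap k K (a i)) - X : K[X]) := by
      intro l
      rw [coeff_sub, coeff_X, coeff_C]
      refine Ge.sub ?_ ?_
      · split_ifs
        · exact Ge.const _
        · exact Ge.zero
      · split_ifs
        · exact Ge.one
        · exact Ge.zero
    have h3 := h2.mul (GeP.C (ge_pord P z i))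
    rwa [zero_add] at h3
  refine (hp_le hQ (g := fun P : Place k K => (d : ℤ) * pord P z) ?_ h1).trans ?_
  · refine (pord_supp (k := k) hz).subset fun P hP h0 => hP ?_
    have h0' : pord P z = 0 := h0
    simp only [h0', mul_zero]
  · unfold pht
    rw [mul_neg, ← smul_eq_mul, smul_finsum]
    exact le_of_eq (congrArg Neg.neg (finsum_congr fun P => (smul_eq_mul _ _).symm))

theorem root_bound {t : K} {Q : K[X]} (hQ : Q ≠ 0) (ht : Q.eval t = 0) :
    hp k (X - C t) ≤ hp k Q := by
  obtain ⟨R, hR⟩ := dvd_iff_isRoot.2 ht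
  have hR0 : R ≠ 0 := by
    rintro rfl
    rw [mul_zero] at hR
    exact hQ hR
  rw [hR, hp_mul (X_sub_C_ne_zero t) hR0]
  have := hp_nonneg (k := k) hR0
  linarith

omit [IsAlgClosed k] [CharZero k] [IsFF k K] in
theorem line_all [Infinite K] {a : Fin (N + 1) → k} {z : Fin (N + 1) → K}
    {G : MvPolynomial (Fin (N + 1)) k} (hG : IsForm G)
    (h : ∀ s : K, val (fun i => (algebraMap k K (a i) - s) * z i) G = 0) (c c' : K) :
    val (fun i => c * (algebraMap k K (a i) * z i) + c' * z i) G = 0 := by
  obtain ⟨d, hd⟩ := hG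
  have hne : ∀ c : K, c ≠ 0 →
      val (fun i => c * (algebraMap k K (a i) * z i) + c' * z i) G = 0 := by
    intro c hc
    have h1 : (fun i => c * (algebraMap k K (a i) * z i) + c' * z i) =
        fun i => c * ((algebraMap k K (a i) - (- (c' / c))) * z i) := by
      funext i
      field_simp
      ring
    rw [h1, val_smul hd, h, mul_zero]
  by_cases hc : c = 0
  · let R : Polynomial K := MvPolynomial.aeval
      (fun i => Polynomial.C (c' * z i) + Polynomial.X * Polynomial.C (algebraMap k K (a i) * z i))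
      G
    have hR : ∀ s : K, R.eval s = val (fun i => s * (algebraMap k K (a i) * z i) + c' * z i) G := by
      intro s
      have h1 : ((Polynomial.aeval s : Polynomial K →ₐ[K] K).restrictScalars k).comp
          (MvPolynomial.aeval
            (fun i => Polynomial.C (c' * z i) + Polynomial.X *
              Polynomial.C (algebraMap k K (a i) * z i))) =
          MvPolynomial.aeval (fun i => s * (algebraMap k K (a i) * z i) + c' * z i) := by
        apply MvPolynomial.algHom_ext
        intro i
        simp only [AlgHom.comp_apply, MvPolynomial.aeval_X, AlgHom.restrictScalars_apply, map_mul,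
          map_add, Polynomial.aeval_C, Polynomial.aeval_X, Algebra.algebraMap_self,
          RingHom.id_apply]
        ring
      unfold val
      rw [← h1, ← Polynomial.coe_aeval_eq_eval]
      rfl
    have hR0 : R = 0 := poly_zero fun s hs => by rw [hR]; exact hne s hs
    have := hR c
    rw [hR0, Polynomial.eval_zero] at this
    exact this.symm
  · exact hne c hc

/-- **The degrees of curves.** -/
theorem curve_bound (hm : 2 ≤ m) (hnm : n < 2 * m) (hN : 4 * n < N + 1)
    {a : Fin (N + 1) → k} (ha : Function.Injective a) {F : ι → MvPolynomial (Fin (N + 1)) k}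
    {D : ℕ} (hF : ∀ e, ∃ d, d ≤ D ∧ (F e).IsHomogeneous d)
    (hsub : Cone F ⊆ Cone (buchi a n m)) {G : MvPolynomial (Fin (N + 1)) k}
    (hline : ∀ b c, Line F b c → ∀ s s' : k, val (s • b + s' • c) G = 0)
    {y : Fin (N + 1) → K} (hy0 : y ≠ 0) (hy : ∀ e, val y (F e) = 0) (hyG : val y G ≠ 0) :
    pht k y ≤ (D + 1) * (2 * n * max (canDeg k K) 0) := by
  classical
  have hchK : CharZero K := charZero_of_injective_algebraMap (algebraMap k K).injective
  have hinf : Infinite k := inferInstance
  have hinfK : Infinite K := inferInstance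
  have hn : n ≤ N := by omega
  have hM : (0 : ℤ) ≤ max (canDeg k K) 0 := le_max_right _ _
  have hm0 : (0 : ℤ) < m := by
    have : 0 < m := by omega
    exact_mod_cast this
  have hmem : ∀ l : Rel a n, val y (buchi a n m l) = 0 := sub_ext hsub hy0 hy
  set H := intp a hn (fun i => y i ^ m) with hHd
  have hev : ∀ i, H.eval (algebraMap k K (a i)) = y i ^ m := intp_eval ha hn m hmem
  have hH : H ≠ 0 := by
    intro h0
    apply hy0
    funext i
    have h1 := hev i
    rw [h0, Polynomial.eval_zero] at h1
    exact eq_zero_of_pow_eq_zero h1.symm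
  have hHdeg : H.natDegree ≤ n := intp_natDegree ha hn _
  have hyH : m * pht k y = hp k H :=
    pht_pow (by omega) ha hH (hHdeg.trans hn) (fun i => (hev i).symm)
  -- it suffices to bound the height of `H`
  have hfin : ∀ B : ℤ, hp k H ≤ m * B → pht k y ≤ B := by
    intro B hB
    rw [← hyH] at hB
    exact le_of_mul_le_mul_left hB hm0
  by_cases hpH : ∀ p : K[X], Irreducible p → ¬ p ^ m ∣ H
  · have h1 := hp_bound hm hN a ha H hH hHdeg (fun i => ⟨y i, (hev i).symm⟩) hpH
    refine (hfin _ h1).trans ?_
    have h2 : (0 : ℤ) ≤ 2 * n * max (canDeg k K) 0 := by positivity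
    nlinarith
  push Not at hpH
  obtain ⟨p, hp', hpH⟩ := hpH
  have hp1 : p.natDegree = 1 := by
    have h1 := Polynomial.natDegree_le_of_dvd hpH hH
    rw [Polynomial.natDegree_pow] at h1
    have h2 := hp'.natDegree_pos
    by_contra hne
    have h3 : 2 ≤ p.natDegree := by omega
    have h4 : m * 2 ≤ m * p.natDegree := Nat.mul_le_mul_left m h3
    omega
  obtain ⟨t, ht⟩ : ∃ t : K, p.eval t = 0 := by
    have h1 := Polynomial.exists_root_of_degree_eq_one (p := p)
      ((Polynomial.degree_eq_iff_natDegree_eq_of_pos one_pos).2 hp1)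
    obtain ⟨t, ht⟩ := h1
    exact ⟨t, ht⟩
  obtain ⟨R, hR⟩ : (Polynomial.X - Polynomial.C t) ^ m ∣ H :=
    (pow_dvd_pow_of_dvd (Polynomial.dvd_iff_isRoot.2 ht) m).trans hpH
  have hR0 : R ≠ 0 := by
    rintro rfl
    rw [mul_zero] at hR
    exact hH hR
  have hdeg : R.natDegree + m ≤ n := by
    have h4 := congrArg Polynomial.natDegree hR
    rw [Polynomial.natDegree_mul (pow_ne_zero _ (Polynomial.X_sub_C_ne_zero t)) hR0,
      Polynomial.natDegree_pow, Polynomial.natDegree_X_sub_C, mul_one] at h4
    omega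
  have hRm : ∀ p : K[X], Irreducible p → ¬ p ^ m ∣ R := by
    intro p' hp' hdvd
    have h1 := Polynomial.natDegree_le_of_dvd hdvd hR0
    rw [Polynomial.natDegree_pow] at h1
    have h2 := hp'.natDegree_pos
    have h4 : m * 1 ≤ m * p'.natDegree := Nat.mul_le_mul_left m h2
    omega
  have hev' : ∀ i, (algebraMap k K (a i) - t) ^ m * R.eval (algebraMap k K (a i)) = y i ^ m := by
    intro i
    rw [← hev i, hR, Polynomial.eval_mul, Polynomial.eval_pow, Polynomial.eval_sub,
      Polynomial.eval_X, Polynomial.eval_C]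
  have hsum : hp k H = m * hp k (X - C t) + hp k R := by
    rw [hR, hp_mul (pow_ne_zero _ (X_sub_C_ne_zero t)) hR0, hp_pow (X_sub_C_ne_zero t)]
  obtain ⟨B, hB⟩ : ∃ B : ℤ, B = 2 * n * max (canDeg k K) 0 := ⟨_, rfl⟩
  have hB0 : 0 ≤ B := by rw [hB]; positivity
  -- the height of `R`
  have hRB : hp k R ≤ m * B := by
    obtain ⟨N', rfl⟩ : ∃ N', N = N' + 1 := ⟨N - 1, by omega⟩
    obtain ⟨i0, hi0⟩ : ∃ i0 : Fin (N' + 1 + 1), ∀ i, i ≠ i0 → algebraMap k K (a i) ≠ t := by
      by_cases h : ∃ i0, algebraMap k K (a i0) = t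
      · obtain ⟨i0, hi0⟩ := h
        refine ⟨i0, fun i hi h1 => hi (ha ((algebraMap k K).injective ?_))⟩
        rw [h1, hi0]
      · push Not at h
        exact ⟨0, fun i _ => h i⟩
    have h1 := hp_bound (k := k) (n := n - m) hm (by omega) (fun j => a (i0.succAbove j))
      (fun x y hxy => Fin.succAbove_right_injective (ha hxy)) R hR0 (by omega) (fun j => by
        have h1 : algebraMap k K (a (i0.succAbove j)) - t ≠ 0 :=
          sub_ne_zero.2 (hi0 _ (Fin.succAbove_ne i0 j))
        refine ⟨y (i0.succAbove j) / (algebraMap k K (a (i0.succAbove j)) - t), ?_⟩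
        rw [div_pow, ← hev', mul_div_assoc, mul_div_cancel₀ _ (pow_ne_zero _ h1)]) hRm
    refine h1.trans (mul_le_mul_of_nonneg_left ?_ hm0.le)
    rw [hB]
    refine mul_le_mul_of_nonneg_right ?_ hM
    have : ((n - m : ℕ) : ℤ) ≤ n := by
      have : n - m ≤ n := Nat.sub_le _ _
      exact_mod_cast this
    linarith
  by_cases htc : ∃ c : k, algebraMap k K c = t
  · obtain ⟨c, rfl⟩ := htc
    rw [hp_X_sub, mul_zero, zero_add] at hsum
    rw [← hsum] at hRB
    refine (hfin _ hRB).trans ?_
    rw [hB] at hB0 ⊢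
    nlinarith
  · push Not at htc
    have hat : ∀ i, algebraMap k K (a i) - t ≠ 0 := fun i => sub_ne_zero.2 (htc (a i))
    set z : Fin (N + 1) → K := fun i => y i / (algebraMap k K (a i) - t) with hz
    have hyz : ∀ i, y i = (algebraMap k K (a i) - t) * z i := by
      intro i
      simp only [hz]
      have := hat i
      field_simp
    have hzm : ∀ i, R.eval (algebraMap k K (a i)) = z i ^ m := by
      intro i
      simp only [hz]
      rw [div_pow, ← hev', mul_div_assoc, mul_div_cancel₀ _ (pow_ne_zero _ (hat i))]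
    obtain ⟨i, j, hij, hi, hj⟩ : ∃ i j, i ≠ j ∧ z i ≠ 0 ∧ z j ≠ 0 := by
      obtain ⟨i, j, hij, hi, hj⟩ := two_nonzero ha (d := R.natDegree) (by omega) hR0 le_rfl
      refine ⟨i, j, hij, ?_, ?_⟩
      · intro h0
        rw [hzm, h0, zero_pow (by omega)] at hi
        exact hi rfl
      · intro h0
        rw [hzm, h0, zero_pow (by omega)] at hj
        exact hj rfl
    have hzR : m * pht k z = hp k R :=
      pht_pow (by omega) ha hR0 (by omega) (fun i => (hzm i).symm)
    have hzB : pht k z ≤ B := by
      rw [← hzR] at hRB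
      exact le_of_mul_le_mul_left hRB hm0
    -- some equation does not vanish on the line
    obtain ⟨e, he⟩ : ∃ e, lineP a z (F e) ≠ 0 := by
      by_contra hcon
      push Not at hcon
      have h1 : ∀ e, ∀ s : K, val (fun i => (algebraMap k K (a i) - s) * z i) (F e) = 0 := by
        intro e s
        rw [← lineP_eval, hcon e, Polynomial.eval_zero]
      refine hyG (mem_closure (F := F) y z ⟨i, j, ?_⟩ (fun c c' e => ?_) hline)
      · have e : y i * z j - y j * z i = algebraMap k K (a i - a j) * (z i * z j) := by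
          rw [hyz i, hyz j, map_sub]; ring
        rw [e]
        exact mul_ne_zero ((_root_.map_ne_zero _).2 (sub_ne_zero.2 fun h => hij (ha h)))
          (mul_ne_zero hi hj)
      · have h2 := line_all (by obtain ⟨d, -, hd⟩ := hF e; exact ⟨d, hd⟩) (h1 e) c (c' - c * t)
        have h3 : (fun i => c * (algebraMap k K (a i) * z i) + (c' - c * t) * z i) =
            fun i => c * y i + c' * z i := by
          funext i
          rw [hyz i]
          ring
        rwa [h3] at h2
    obtain ⟨d, hdD, hd⟩ := hF e
    have h1 : hp k (X - C t) ≤ hp k (lineP a z (F e)) := by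
      refine root_bound he ?_
      rw [lineP_eval]
      have h2 : (fun i => (algebraMap k K (a i) - t) * z i) = y := funext fun i => (hyz i).symm
      rw [h2]
      exact hy e
    have h2 : hp k (lineP a z (F e)) ≤ d * pht k z := hp_lineP ⟨i, hi⟩ hd he
    have h3 : (d : ℤ) * pht k z ≤ D * B := by
      have h4 : (d : ℤ) ≤ D := by exact_mod_cast hdD
      have h5 : (d : ℤ) * pht k z ≤ d * B := mul_le_mul_of_nonneg_left hzB (by positivity)
      exact h5.trans (mul_le_mul_of_nonneg_right h4 hB0)
    refine hfin _ ?_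
    rw [hsum, ← hB]
    have h6 : (m : ℤ) * hp k (X - C t) ≤ m * (D * B) :=
      mul_le_mul_of_nonneg_left (h1.trans (h2.trans h3)) hm0.le
    calc (m : ℤ) * hp k (X - C t) + hp k R ≤ m * (D * B) + m * B := add_le_add h6 hRB
      _ = m * ((D + 1) * B) := by ring

end Pool.Agent.Y216.PF
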