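import Pool.Agent.Y216.VfA
import Pool.Agent.Y216.LG.Rad
import Pool.Agent.Y190.BV.Sub

/-!
Heights of polynomials over the function field of a curve; polynomials whose values at many
constants are `m`-th powers and which have no factor of multiplicity `m`.
-/

set_option autoImplicit false

open FF Pool.Agent.W603.LV Pool.Agent.W603.PV Pool.Agent.W601.VF Polynomial

namespace Pool.Agent.Y216.PF

open Pool.Agent.Y190.BV Pool.Agent.Y216

variable {k : Type} [Field k] [IsAlgClosed k] [CharZero k] {K : Type} [Field K] [Algebra k K]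
  [IsFF k K]

/-- the height of a polynomial -/
noncomputable def hp (k : Type) [Field k] {K : Type} [Field K] [Algebra k K] (F : K[X]) : ℤ :=
  - ∑ᶠ P : Place k K, cnt P F

theorem cnt_supp {F : K[X]} (hF : F ≠ 0) : (Function.support fun P : Place k K => cnt P F).Finite := by
  classical
  obtain ⟨T, hT⟩ := exists_supp (k := k) (Finset.range (F.natDegree + 1)) fun j => F.coeff j
  refine T.finite_toSet.subset fun P hP => ?_
  obtain ⟨j, hj, hj2⟩ := cnt_att P hF
  have hP' : cnt P F ≠ 0 := hP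
  rw [← hj2] at hP'
  exact hT j (Finset.mem_range.2 (Nat.lt_succ_of_le (le_natDegree_of_ne_zero hj))) P hP'

theorem hp_mul {F G : K[X]} (hF : F ≠ 0) (hG : G ≠ 0) : hp k (F * G) = hp k F + hp k G := by
  have hinf : Infinite k := inferInstance
  unfold hp
  have h1 : (fun P : Place k K => cnt P (F * G)) = fun P => cnt P F + cnt P G :=
    funext fun P => cnt_mul P hF hG
  rw [h1, finsum_add_distrib (cnt_supp hF) (cnt_supp hG)]
  ring

theorem hp_C {u : K} (hu : u ≠ 0) : hp k (C u) = 0 := by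
  unfold hp
  have h1 : (fun P : Place k K => cnt P (C u)) = fun P => P.ord u := funext fun P => cnt_C P hu
  rw [h1, sum_ord, neg_zero]

theorem hp_one : hp k (1 : K[X]) = 0 := by
  rw [← C_1]
  exact hp_C one_ne_zero

theorem hp_pow {F : K[X]} (hF : F ≠ 0) (n : ℕ) : hp k (F ^ n) = n * hp k F := by
  induction n with
  | zero => rw [pow_zero, hp_one, Nat.cast_zero, zero_mul]
  | succ n ih =>
    rw [pow_succ, hp_mul (pow_ne_zero _ hF) hF, ih]
    push_cast
    ring

theorem hp_prod {ι : Type*} (s : Finset ι) (F : ι → K[X]) (h : ∀ i ∈ s, F i ≠ 0) :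
    hp k (∏ i ∈ s, F i) = ∑ i ∈ s, hp k (F i) := by
  classical
  induction s using Finset.induction_on with
  | empty => rw [Finset.prod_empty, Finset.sum_empty, hp_one]
  | insert a s ha ih =>
    rw [Finset.prod_insert ha, Finset.sum_insert ha, hp_mul (h a (Finset.mem_insert_self a s))
      (Finset.prod_ne_zero_iff.2 fun i hi => h i (Finset.mem_insert_of_mem hi)),
      ih fun i hi => h i (Finset.mem_insert_of_mem hi)]

/-- comparison with a sum over the places -/
theorem hp_le {F : K[X]} (hF : F ≠ 0) {g : Place k K → ℤ} (hg : (Function.support g).Finite)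
    (h : ∀ P, g P ≤ cnt P F) : hp k F ≤ - ∑ᶠ P, g P := by
  unfold hp
  exact neg_le_neg (finsum_le_finsum' hg (cnt_supp hF) h)

theorem hp_nonneg {F : K[X]} (hF : F ≠ 0) : 0 ≤ hp k F := by
  unfold hp
  obtain ⟨j, hj⟩ : ∃ j, F.coeff j ≠ 0 := by
    by_contra hcon
    push Not at hcon
    exact hF (Polynomial.ext fun j => by rw [hcon j, coeff_zero])
  have h1 : ∑ᶠ P : Place k K, cnt P F ≤ ∑ᶠ P : Place k K, P.ord (F.coeff j) := by
    refine finsum_le_finsum' (cnt_supp hF) (finite_support (k := k) (F.coeff j)) fun P => ?_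
    exact (cnt_ge P F j).resolve_left hj
  rw [sum_ord] at h1
  linarith

theorem pord_coeff {d : ℕ} {F : K[X]} (hF : F ≠ 0) (hd : F.natDegree ≤ d) (P : Place k K) :
    pord P (fun j : Fin (d + 1) => F.coeff j) = cnt P F := by
  obtain ⟨j, hj, hj2⟩ := cnt_att P hF
  have hjd : j < d + 1 := Nat.lt_succ_of_le ((le_natDegree_of_ne_zero hj).trans hd)
  apply le_antisymm
  · rw [← hj2]
    exact pord_le P (f := fun j : Fin (d + 1) => F.coeff j) (j := ⟨j, hjd⟩) hj
  · obtain ⟨i, hi, hi2⟩ := exists_pord P (f := fun j : Fin (d + 1) => F.coeff j) ⟨⟨j, hjd⟩, hj⟩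
    rw [← hi2]
    exact (cnt_ge P F i).resolve_left hi

theorem pht_coeff {d : ℕ} {F : K[X]} (hF : F ≠ 0) (hd : F.natDegree ≤ d) :
    pht k (fun j : Fin (d + 1) => F.coeff j) = hp k F := by
  unfold pht hp
  simp only [pord_coeff hF hd]

/-- the height of a point whose coordinates are `m`-th roots of the values of a polynomial -/
theorem pord_pow {m N : ℕ} (hm : 1 ≤ m) {a : Fin (N + 1) → k} (ha : Function.Injective a)
    {H : K[X]} (hH : H ≠ 0) (hdeg : H.natDegree ≤ N) {y : Fin (N + 1) → K}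
    (hy : ∀ i, y i ^ m = H.eval (algebraMap k K (a i))) (P : Place k K) :
    m * pord P y = cnt P H := by
  obtain ⟨i, hi, hi2⟩ := exists_good P hH hdeg a ha
  have hyi : y i ≠ 0 := by
    intro h0
    apply hi
    rw [← hy i, h0, zero_pow (by omega)]
  apply le_antisymm
  · rw [← hi2, ← hy i, P.ord_pow]
    exact mul_le_mul_of_nonneg_left (pord_le P hyi) (by positivity)
  · obtain ⟨j, hj, hj2⟩ := exists_pord P (f := y) ⟨i, hyi⟩
    rw [← hj2, ← P.ord_pow, hy j]
    refine (cnt_eval P H (a j)).resolve_left ?_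
    rw [← hy j]
    exact pow_ne_zero _ hj

theorem pht_pow {m N : ℕ} (hm : 1 ≤ m) {a : Fin (N + 1) → k} (ha : Function.Injective a)
    {H : K[X]} (hH : H ≠ 0) (hdeg : H.natDegree ≤ N) {y : Fin (N + 1) → K}
    (hy : ∀ i, y i ^ m = H.eval (algebraMap k K (a i))) : m * pht k y = hp k H := by
  unfold pht hp
  have h1 : (fun P : Place k K => cnt P H) = fun P => (m : ℤ) * pord P y :=
    funext fun P => (pord_pow hm ha hH hdeg hy P).symm
  rw [h1, mul_neg]
  have hm0 : (m : ℤ) ≠ 0 := by
    have : m ≠ 0 := by omega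
    exact_mod_cast this
  rw [← smul_eq_mul, smul_finsum, finsum_congr fun P => smul_eq_mul _ _]

theorem cnt_X_sub {c : k} (P : Place k K) : cnt P (X - C (algebraMap k K c)) = 0 := by
  apply cnt_unique
  · intro j
    rw [Polynomial.coeff_sub, Polynomial.coeff_X, Polynomial.coeff_C]
    refine Ge.sub ?_ ?_
    · split_ifs
      · exact Ge.one
      · exact Ge.zero
    · split_ifs
      · exact Ge.const _
      · exact Ge.zero
  · refine ⟨1, ?_, ?_⟩
    · rw [Polynomial.coeff_sub, Polynomial.coeff_X_one, Polynomial.coeff_C_of_ne_zero one_ne_zero,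
        sub_zero]
      exact one_ne_zero
    · rw [Polynomial.coeff_sub, Polynomial.coeff_X_one, Polynomial.coeff_C_of_ne_zero one_ne_zero,
        sub_zero, P.ord_one]

theorem hp_X_sub {c : k} : hp k (X - C (algebraMap k K c) : K[X]) = 0 := by
  unfold hp
  simp only [cnt_X_sub, finsum_zero, neg_zero]

/-- **The height inequality.** -/
theorem hp_bound {n m N : ℕ} (hm : 2 ≤ m) (hN : 4 * n < N + 1) (a : Fin (N + 1) → k)
    (ha : Function.Injective a) (H : K[X]) (hH : H ≠ 0) (hdeg : H.natDegree ≤ n)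
    (hpow : ∀ i, ∃ y : K, y ^ m = H.eval (algebraMap k K (a i)))
    (hmult : ∀ p : K[X], Irreducible p → ¬ p ^ m ∣ H) :
    hp k H ≤ (m : ℤ) * (2 * n * max (canDeg k K) 0) := by
  classical
  have hchK : CharZero K := charZero_of_injective_algebraMap (algebraMap k K).injective
  have hinf : Infinite k := inferInstance
  obtain ⟨r, rfl⟩ : ∃ r, m = r + 1 := ⟨m - 1, by omega⟩
  obtain ⟨T, T1, e, u, hu, hT, hHT, hTe, hT1T, hT1c, hT2, ⟨I0, hI0, hdz⟩, hct⟩ :=
    LG.rad_data (r := r) a ha H hH hdeg hmult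
  set G : K[X] := ∏ p ∈ T1, p with hG
  have hGsep : G.Separable := by
    refine Polynomial.separable_prod' ?_ ?_
    · intro p hp r hr hpr
      exact coprime_of_ne (hT p (hT1T hp)).1 (hT r (hT1T hr)).1 (hT p (hT1T hp)).2
        (hT r (hT1T hr)).2 hpr
    · intro p hp
      exact (hT p (hT1T hp)).1.separable
  have hGm : G.Monic := Polynomial.monic_prod_of_monic _ _ fun p hp => (hT p (hT1T hp)).2
  have hG0 : G ≠ 0 := hGsep.ne_zero
  have hGa : ∀ c : k, G.eval (algebraMap k K c) ≠ 0 := by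
    intro c
    rw [hG, Polynomial.eval_prod]
    exact Finset.prod_ne_zero_iff.2 fun p hp => hT1c p hp c
  have hdiv : ∀ (P : Place k K) (i : Fin (N + 1)), H.eval (algebraMap k K (a i)) ≠ 0 →
      ((r + 1 : ℕ) : ℤ) ∣ ct P H (a i) := by
    intro P i hi
    have h1 : ∀ i, ((r + 1 : ℕ) : ℤ) ∣ P.ord (H.eval (algebraMap k K (a i))) := by
      intro i
      obtain ⟨y, hy⟩ := hpow i
      rw [← hy, P.ord_pow]
      exact Dvd.intro _ rfl
    obtain ⟨j, hj, hj2⟩ := exists_good P hH (hdeg.trans (by omega : n ≤ N)) a ha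
    unfold ct
    rw [← hj2]
    exact dvd_sub (h1 i) (h1 j)
  have hct2 : ∀ (P : Place k K) (i : Fin (N + 1)), H.eval (algebraMap k K (a i)) ≠ 0 →
      ct P G (a i) = 0 ∨ 2 ≤ ct P G (a i) := by
    intro P i hi
    obtain ⟨h1, h2⟩ := hct P i hi
    obtain ⟨c, hc⟩ := hdiv P i hi
    have h3 : 0 ≤ ct P G (a i) := ct_nonneg P (hGa _)
    by_contra hcon
    push Not at hcon
    have h4 : ct P G (a i) = 1 := by omega
    rw [h4] at h1 h2
    rw [hc] at h1 h2
    push_cast at h1 h2
    have h5 : 0 < c := by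
      by_contra h
      push Not at h
      nlinarith
    nlinarith
  -- the heights
  have hHh : hp k H = ∑ p ∈ T, (e p : ℤ) * hp k p := by
    have hne : ∀ p ∈ T, p ^ e p ≠ 0 := fun p hp => pow_ne_zero _ (hT p hp).1.ne_zero
    conv_lhs => rw [hHT]
    rw [hp_mul (C_ne_zero.2 hu) (Finset.prod_ne_zero_iff.2 hne), hp_C hu, zero_add,
      hp_prod T _ hne]
    exact Finset.sum_congr rfl fun p hp => hp_pow (hT p hp).1.ne_zero _
  have hHG : hp k H ≤ r * hp k G := by
    have h1 : hp k G = ∑ p ∈ T1, hp k p := hp_prod T1 _ fun p hp => (hT p (hT1T hp)).1.ne_zero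
    have h2 : ∑ p ∈ T, (e p : ℤ) * hp k p = ∑ p ∈ T1, (e p : ℤ) * hp k p := by
      symm
      refine Finset.sum_subset hT1T fun p hp hp1 => ?_
      obtain ⟨c, hc⟩ := hT2 p hp hp1
      rw [eq_X_sub_C (hT p hp).1 (hT p hp).2 hc, hp_X_sub, mul_zero]
    rw [hHh, h2, h1, Finset.mul_sum]
    refine Finset.sum_le_sum fun p hp => ?_
    have h3 : (e p : ℤ) ≤ r := by exact_mod_cast (hTe p (hT1T hp)).2
    exact mul_le_mul_of_nonneg_right h3 (hp_nonneg (hT p (hT1T hp)).1.ne_zero)
  -- the good nodes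
  have hcard : (I0ᶜ : Finset (Fin (N + 1))).card + I0.card = N + 1 := by
    have := Finset.card_compl_add_card I0
    rwa [Fintype.card_fin] at this
  set q := (I0ᶜ : Finset (Fin (N + 1))).card with hq
  let ee : Fin q ≃ (I0ᶜ : Finset (Fin (N + 1))) :=
    (Fintype.equivFinOfCardEq (by rw [Fintype.card_coe])).symm
  have hee : ∀ i, H.eval (algebraMap k K (a (ee i))) ≠ 0 := fun i h0 =>
    (Finset.mem_compl.1 (ee i).2) ((hI0 _).2 h0)
  have hae : ∀ i j : Fin q, i ≠ j → (1 : k) * a (ee j) ≠ 1 * a (ee i) := by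
    intro i j hij h
    rw [one_mul, one_mul] at h
    exact hij (ee.injective (Subtype.ext (ha h.symm)))
  set d := G.natDegree with hd
  obtain ⟨f, hf⟩ : ∃ f : Fin (d + 1) → K, f = fun j : Fin (d + 1) => G.coeff (j : ℕ) := ⟨_, rfl⟩
  have hpolf : G = pol f := by
    rw [hf]
    exact eq_pol le_rfl
  have hlast : f (Fin.last d) ≠ 0 := by
    rw [hf]
    change G.coeff ((Fin.last d : Fin (d + 1)) : ℕ) ≠ 0
    rw [Fin.val_last, hd, coeff_natDegree]
    exact leadingCoeff_ne_zero.2 hG0
  have hlv : ∀ i : Fin q, lv (rnc d (fun _ => (1 : k)) (fun i => a (ee i)) i) f =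
      G.eval (algebraMap k K (a (ee i))) := by
    intro i
    rw [lv_rnc, hpolf]
    unfold bev pol
    rw [eval_finsetSum]
    refine Finset.sum_congr rfl fun l _ => ?_
    rw [eval_mul, eval_C, eval_pow, eval_X, map_one, one_pow]
    ring
  have hpf : ∀ P : Place k K, pord P f = cnt P G := fun P => by
    rw [hf]
    exact pord_coeff hG0 le_rfl P
  have hq4 : 4 * d + 1 ≤ q := by omega
  have hsum : 2 * (d : ℝ) < ∑ _i : Fin q, (1 / 2 : ℝ) := by
    rw [Finset.sum_const, Finset.card_univ, Fintype.card_fin, nsmul_eq_mul]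
    have : ((4 * d + 1 : ℕ) : ℝ) ≤ q := by exact_mod_cast hq4
    push_cast at this
    linarith
  set c : ℝ := max (-(canDeg k K : ℝ)) 0 with hc
  have hmain := rnc_trunc (k := k) (L := K) (u := fun _ : Fin q => (1 : k))
    (v := fun i => a (ee i)) hae (w := fun _ => 1 / 2) (fun _ => by norm_num) (c := c)
    (le_max_right _ _) (by
      have := le_max_left (-(canDeg k K : ℝ)) 0
      linarith) ∅ hsum (f := f) hlast (by rw [← hpolf]; exact hGsep.squarefree)
    (fun i => by rw [hlv]; exact hGa _) (fun P _ => by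
      rw [Finset.card_filter]
      push_cast
      refine Finset.sum_le_sum fun i _ => ?_
      rw [hlv, hpf]
      have h1 := hct2 P (ee i) (hee i)
      unfold ct at h1
      split_ifs with h
      · have h2 : (2 : ℤ) ≤ P.ord (G.eval (algebraMap k K (a (ee i)))) - cnt P G := by
          rcases h1 with h1 | h1
          · omega
          · exact h1
        have h3 : (2 : ℝ) ≤ ((P.ord (G.eval (algebraMap k K (a (ee i)))) - cnt P G : ℤ) : ℝ) := by
          exact_mod_cast h2
        push_cast at h3 ⊢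
        linarith
      · have h2 : (0 : ℤ) ≤ P.ord (G.eval (algebraMap k K (a (ee i)))) - cnt P G := by
          rcases h1 with h1 | h1
          · omega
          · omega
        have h3 : (0 : ℝ) ≤ ((P.ord (G.eval (algebraMap k K (a (ee i)))) - cnt P G : ℤ) : ℝ) := by
          exact_mod_cast h2
        push_cast at h3 ⊢
        linarith)
  rw [Finset.sum_empty, zero_add, Finset.sum_const, Finset.card_univ, Fintype.card_fin,
    nsmul_eq_mul] at hmain
  have hphf : pht k f = hp k G := by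
    rw [hf]
    exact pht_coeff hG0 le_rfl
  rw [hphf] at hmain
  have hG2 : hp k G ≤ 2 * d * max (canDeg k K) 0 := by
    have h0 : (0 : ℝ) ≤ (hp k G : ℝ) := by exact_mod_cast hp_nonneg hG0
    have h1 : ((4 * d + 1 : ℕ) : ℝ) ≤ q := by exact_mod_cast hq4
    push_cast at h1
    have h2 : (canDeg k K : ℝ) + c = ((max (canDeg k K) 0 : ℤ) : ℝ) := by
      rw [hc]
      push_cast
      rcases le_total (canDeg k K : ℝ) 0 with h | h
      · rw [max_eq_left (by linarith), max_eq_right h]; ring
      · rw [max_eq_right (by linarith), max_eq_left h]; ring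
    rw [h2] at hmain
    have h3 : (1 / 2 : ℝ) * (hp k G : ℝ) ≤ (q * (1 / 2) - 2 * d) * (hp k G : ℝ) :=
      mul_le_mul_of_nonneg_right (by linarith) h0
    have h4 : (hp k G : ℝ) ≤ 2 * d * ((max (canDeg k K) 0 : ℤ) : ℝ) := by linarith
    exact_mod_cast h4
  have hM : (0 : ℤ) ≤ max (canDeg k K) 0 := le_max_right _ _
  have hdn : (d : ℤ) ≤ n := by
    have : d ≤ n := by omega
    exact_mod_cast this
  calc hp k H ≤ r * hp k G := hHG
    _ ≤ r * (2 * d * max (canDeg k K) 0) := mul_le_mul_of_nonneg_left hG2 (by positivity)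
    _ ≤ r * (2 * n * max (canDeg k K) 0) := by
        refine mul_le_mul_of_nonneg_left ?_ (by positivity)
        exact mul_le_mul_of_nonneg_right (by linarith) hM
    _ ≤ ((r + 1 : ℕ) : ℤ) * (2 * n * max (canDeg k K) 0) := by
        refine mul_le_mul_of_nonneg_right ?_ (by positivity)
        push_cast
        linarith

end Pool.Agent.Y216.PF
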