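import Pool.Agent.Y216.PF.Cur
import Pool.Agent.TH710.NU.Four
import Pool.Agent.Y190.BV.Cng

/-!
Notions of hyperbolicity for the closed subvarieties of the varieties of points whose `m`-th powers
are the values of polynomials.
-/

set_option autoImplicit false

open FF Pool.Agent.W603.LV Pool.Agent.W603.PV Pool.Agent.W601.VF Polynomial Pool.Agent.W602.GT
  Pool.Agent.W603.CX

namespace Pool.Agent.Y216.PF

open Pool.Agent.Y190.BV Pool.Agent.Y216

variable {k : Type} [Field k] [IsAlgClosed k] [CharZero k] {N n m : ℕ} {ι : Type}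

omit [CharZero k] [IsAlgClosed k] in
theorem contains_of_line {F : ι → MvPolynomial (Fin (N + 1)) k} {b c : Fin (N + 1) → k}
    (h : Line F b c) : ContainsLine F := by
  refine ⟨b, c, ?_, fun t e => ?_⟩
  · by_contra hcon
    push Not at hcon
    have hli := LinearIndependent.pair_iff.1 h.1
    have ha : b = 0 := by
      by_contra ha
      obtain ⟨i, hi⟩ := Function.ne_iff.1 ha
      have h1 := hli (c i) (-(b i)) (by
        funext l
        simp only [Pi.add_apply, Pi.smul_apply, smul_eq_mul, Pi.zero_apply]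
        linear_combination hcon i l)
      exact hi (neg_eq_zero.1 h1.2)
    have h1 := hli 1 0 (by rw [ha]; simp)
    exact one_ne_zero h1.1
  · have h1 := h.2 1 t e
    rw [val_eval'] at h1
    have h2 : (fun i => b i + t * c i) = (1 : k) • b + t • c := by
      funext i
      simp
    rw [h2]
    exact h1

theorem gm_of_contains {F : ι → MvPolynomial (Fin (N + 1)) k} (h : ContainsLine F) :
    ∃ P, GmCurve F P := by
  obtain ⟨x, v, ⟨j, l, hjl⟩, hl⟩ := h
  refine gm_of_line (a := x) (b := v) ?_ (fun e t => ?_)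
  · rw [LinearIndependent.pair_iff]
    intro c c' hcc
    have e1 := congrFun hcc j
    have e2 := congrFun hcc l
    simp only [Pi.add_apply, Pi.smul_apply, smul_eq_mul, Pi.zero_apply] at e1 e2
    have h1 : v j * x l - v l * x j ≠ 0 := sub_ne_zero.2 hjl
    have h2 : c * (v j * x l - v l * x j) = 0 := by
      linear_combination v j * e2 - v l * e1
    have h3 : c' * (v j * x l - v l * x j) = 0 := by
      linear_combination x l * e1 - x j * e2
    exact ⟨(mul_eq_zero.1 h2).resolve_right h1, (mul_eq_zero.1 h3).resolve_right h1⟩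
  · rw [val_eval', one_smul]
    exact hl t e

/-- **Notions of hyperbolicity.** -/
theorem five (hm : 2 ≤ m) (hnm : n < 2 * m) (hN : 4 * n + (n + 1) ^ 2 < 2 * (N + 1))
    {a : Fin (N + 1) → k} (ha : Function.Injective a) {F : ι → MvPolynomial (Fin (N + 1)) k}
    {D : ℕ} (hF : ∀ e, ∃ d, d ≤ D ∧ (F e).IsHomogeneous d)
    (hX : ∀ x ∈ Cone F, ∃ H : Polynomial k, H.natDegree ≤ n ∧ ∀ i, x i ^ m = H.eval (a i)) :
    [∃ A : ℕ, AlgHyperbolic A F, BoundedOnCurves F, ∀ P, ¬ GmCurve F P, ¬ ContainsLine F,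
      AllGeneralType F].TFAE ∧
    ∀ G : MvPolynomial (Fin (N + 1)) k,
      (∀ b c, Line F b c → ∀ s s' : k, val (s • b + s' • c) G = 0) →
      ∀ (K : Type) [Field K] [Algebra k K] [IsFF k K] (y : Fin (N + 1) → K), y ≠ 0 →
        (∀ e, val y (F e) = 0) → val y G ≠ 0 →
        pht k y ≤ (D + 1) * (2 * n * max (canDeg k K) 0) := by
  have h4n : 4 * n < N + 1 := by
    nlinarith [sq_nonneg ((n : ℤ) - 1)]
  have hn : n ≤ N := by omega
  have hsub : Cone F ⊆ Cone (buchi a n m) := by
    intro x hx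
    rw [cone_buchi ha hn]
    exact ⟨hx.1, hX x hx⟩
  have hF' : ∀ e, IsForm (F e) := fun e => by
    obtain ⟨d, -, hd⟩ := hF e
    exact ⟨d, hd⟩
  have key : ∀ G : MvPolynomial (Fin (N + 1)) k,
      (∀ b c, Line F b c → ∀ s s' : k, val (s • b + s' • c) G = 0) →
      ∀ (K : Type) [Field K] [Algebra k K] [IsFF k K] (y : Fin (N + 1) → K), y ≠ 0 →
        (∀ e, val y (F e) = 0) → val y G ≠ 0 →
        pht k y ≤ (D + 1) * (2 * n * max (canDeg k K) 0) :=
    fun G hG K _ _ _ y hy0 hy hyG => curve_bound hm hnm h4n ha hF hsub hG hy0 hy hyG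
  refine ⟨?_, key⟩
  tfae_have 1 → 2 := by
    rintro ⟨A, hA⟩ K _ _ _
    exact ⟨_, fun f hf0 hf => hA K f hf0 hf⟩
  tfae_have 1 → 3 := fun ⟨A, hA⟩ P => Pool.Agent.TH710.NU.no_gm_of_hyp hA P
  tfae_have 3 → 4 := fun h hl => by
    obtain ⟨P, hP⟩ := gm_of_contains hl
    exact h P hP
  tfae_have 2 → 4 := by
    intro h hl
    obtain ⟨B, hB⟩ := h (RatFunc k)
    obtain ⟨f, hf0, hf, hlt⟩ := unbounded_line hl B
    exact absurd (hB f hf0 hf) (not_le.2 hlt)
  tfae_have 4 → 1 := by
    intro h
    refine ⟨(D + 1) * (2 * n), fun K _ _ _ f hf0 hf => ?_⟩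
    have h1 := key 1 (fun b c hbc _ _ => absurd (contains_of_line hbc) h) K f
      (by obtain ⟨j, hj⟩ := hf0; exact Function.ne_iff.2 ⟨j, hj⟩) hf
      (by unfold val; rw [map_one]; exact one_ne_zero)
    push_cast
    linarith
  tfae_have 4 → 5 := by
    intro h K _ _ w y hw hy
    by_contra hgt
    have hchK : CharZero K := charZero_of_injective_algebraMap (algebraMap k K).injective
    have hinfK : Infinite K := inferInstance
    have hy' : SubVar (buchi a n m) K w y := ⟨hy.ne, sub_ext hsub hy.ne hy.mem, hy.gen, hy.dim⟩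
    obtain ⟨hmn, t, z, hyz, hz, ⟨i, j, hij, hi, hj⟩, htr, htop⟩ :=
      structure_thm hm hnm hN ha hy' hgt
    have h1 : val y (1 : MvPolynomial (Fin (N + 1)) k) = 0 := by
      refine mem_closure y z ⟨i, j, ?_⟩
        (fun c c' e => line_vanish hyz hi htr (hF' e) (hy.mem e) c c')
        (fun b c hbc _ _ => absurd (contains_of_line hbc) h)
      rw [hyz i, hyz j]
      have e : (algebraMap k K (a i) - t) * z i * z j - (algebraMap k K (a j) - t) * z j * z i =
          algebraMap k K (a i - a j) * (z i * z j) := by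
        rw [map_sub]; ring
      rw [e]
      exact mul_ne_zero ((_root_.map_ne_zero _).2 (sub_ne_zero.2 fun h => hij (ha h)))
        (mul_ne_zero hi hj)
    unfold val at h1
    rw [map_one] at h1
    exact one_ne_zero h1
  tfae_have 5 → 3 := by
    intro h P hP
    obtain ⟨K, _, _, y, hy, hgt⟩ := sub_of_gm hF' hP
    exact hgt (h K 1 y le_rfl hy)
  tfae_finish

end Pool.Agent.Y216.PF
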